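import Mathlib

set_option autoImplicit false

/-!
# Odd numbers that are not the distance from a power of `2` to the next odd semiprime

A double covering system: for every `n` the number `2 ^ n + k` is divisible by one of `46` products `p q` of two
primes (`p = q` for two of them, `9` and `25`), as soon as `k` lies in a suitable residue class modulo
`2 · 3² · 5² · 7 · 11 · 13 · 17 · 19 · 31 · 37 · 41 · 73 · 97 · 109 · 151 · 241 · 257 · 331 · 631 · 673 · 23311`.
All the products are smaller than `k`, hence `2 ^ n + k` is never a semiprime. The period of the covering is `720`.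
-/

namespace Pool.Agent.Results.MP_c49196_nt.MissedOddNumbers

/-- A semiprime is a product `p q` of two primes, not necessarily distinct. -/
def IsSemiprime (s : ℕ) : Prop := ∃ p q : ℕ, p.Prime ∧ q.Prime ∧ s = p * q

/-- `a n` is the distance from `2 ^ n` to the smallest odd semiprime exceeding `2 ^ n`. -/
noncomputable def a (n : ℕ) : ℕ := sInf {s : ℕ | 2 ^ n < s ∧ Odd s ∧ IsSemiprime s} - 2 ^ n

/-- The minimum in the definition of `a n` exists (so that `a n` is the distance described in words). -/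
theorem exists_odd_semiprime (n : ℕ) : {s : ℕ | 2 ^ n < s ∧ Odd s ∧ IsSemiprime s}.Nonempty := by
  obtain ⟨p, hp1, hp⟩ := Nat.exists_infinite_primes (2 ^ n + 3)
  have h1 : 1 ≤ 2 ^ n := Nat.one_le_two_pow
  have hodd : Odd p := hp.odd_of_ne_two (by omega)
  exact ⟨3 * p, by omega, (by decide : Odd 3).mul hodd, 3, p, Nat.prime_three, hp, rfl⟩

/-- The residue class. -/
def K : ℕ := 5282301762932378884612377761043553763

/-- The modulus. -/
def M : ℕ := 161837035812320362140711602310022300050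

/-- The pairs of primes of the double covering. -/
def pairs : List (ℕ × ℕ) :=
  [(3, 7), (3, 3), (3, 13), (7, 5), (7, 17), (5, 31), (5, 11), (5, 5), (3, 73), (3, 37), (3, 109), (7, 257),
   (7, 673), (257, 241), (5, 151), (5, 331), (31, 17), (17, 11), (17, 41), (5, 73), (5, 19), (17, 151),
   (17, 331), (73, 241), (19, 241), (5, 631), (5, 23311), (17, 73), (17, 19), (31, 257), (31, 97), (11, 257),
   (11, 97), (151, 257), (151, 97), (257, 41), (257, 331), (41, 97), (331, 97), (17, 631), (17, 23311),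
   (31, 241), (11, 241), (41, 241), (241, 631), (241, 23311)]

theorem cover : ∀ r < 720, ∃ d ∈ pairs, (2 ^ r + K) % (d.1 * d.2) = 0 := by
  decide +kernel

theorem pairs_spec : ∀ d ∈ pairs, 2 ^ 720 % (d.1 * d.2) = 1 ∧ M % (d.1 * d.2) = 0 ∧ d.1 * d.2 < K := by
  decide +kernel

theorem pairs_prime : ∀ d ∈ pairs, d.1.Prime ∧ d.2.Prime := by
  have h : ∀ p ∈ [3, 5, 7, 11, 13, 17, 19, 31, 37, 41, 73, 97, 109, 151, 241, 257, 331, 631, 673, 23311],
      Nat.Prime p := by
    intro p hp
    simp only [List.mem_cons, List.not_mem_nil, or_false] at hp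
    rcases hp with rfl | rfl | rfl | rfl | rfl | rfl | rfl | rfl | rfl | rfl | rfl | rfl | rfl | rfl | rfl | rfl |
      rfl | rfl | rfl | rfl <;> norm_num
  have h2 : ∀ d ∈ pairs,
      d.1 ∈ [3, 5, 7, 11, 13, 17, 19, 31, 37, 41, 73, 97, 109, 151, 241, 257, 331, 631, 673, 23311] ∧
      d.2 ∈ [3, 5, 7, 11, 13, 17, 19, 31, 37, 41, 73, 97, 109, 151, 241, 257, 331, 631, 673, 23311] := by
    decide +kernel
  exact fun d hd => ⟨h _ (h2 d hd).1, h _ (h2 d hd).2⟩

/-- A semiprime which is a multiple of a product of two primes is equal to it. -/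
theorem eq_of_dvd {s u v : ℕ} (hs : IsSemiprime s) (hu : u.Prime) (hv : v.Prime) (h : u * v ∣ s) : s = u * v := by
  obtain ⟨p, q, hp, hq, rfl⟩ := hs
  obtain ⟨t, ht⟩ := h
  have hu' : u ∣ p * q := ⟨v * t, by rw [ht]; ring⟩
  rcases (Nat.Prime.dvd_mul hu).1 hu' with h1 | h1
  · have e := (Nat.prime_dvd_prime_iff_eq hu hp).1 h1
    subst e
    have h2 : q = v * t := by
      apply Nat.eq_of_mul_eq_mul_left hu.pos
      rw [ht]; ring
    have e := (Nat.prime_dvd_prime_iff_eq hv hq).1 ⟨t, h2⟩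
    rw [e]
  · have e := (Nat.prime_dvd_prime_iff_eq hu hq).1 h1
    subst e
    have h2 : p = v * t := by
      apply Nat.eq_of_mul_eq_mul_left hu.pos
      rw [mul_comm u p, ht]; ring
    have e := (Nat.prime_dvd_prime_iff_eq hv hp).1 ⟨t, h2⟩
    rw [e, mul_comm]

/-- `2 ^ n + K + M j` is never a semiprime. -/
theorem not_semiprime (n j : ℕ) : ¬ IsSemiprime (2 ^ n + (K + M * j)) := by
  intro hs
  obtain ⟨d, hd, h0⟩ := cover (n % 720) (Nat.mod_lt _ (by norm_num))
  obtain ⟨h1, h2, h3⟩ := pairs_spec d hd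
  obtain ⟨hp, hq⟩ := pairs_prime d hd
  have h4 : 2 ^ n ≡ 2 ^ (n % 720) [MOD d.1 * d.2] := by
    have e : 2 ^ n = (2 ^ 720) ^ (n / 720) * 2 ^ (n % 720) := by
      rw [← pow_mul, ← pow_add, Nat.div_add_mod]
    have h5 : 2 ^ 720 ≡ 1 [MOD d.1 * d.2] := by
      have h1' : 1 % (d.1 * d.2) = 1 := by
        have : 1 < d.1 * d.2 := by nlinarith [hp.two_le, hq.two_le]
        exact Nat.mod_eq_of_lt this
      unfold Nat.ModEq
      rw [h1, h1']
    calc 2 ^ n = (2 ^ 720) ^ (n / 720) * 2 ^ (n % 720) := e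
      _ ≡ 1 ^ (n / 720) * 2 ^ (n % 720) [MOD d.1 * d.2] := (h5.pow _).mul_right _
      _ = 2 ^ (n % 720) := by rw [one_pow, one_mul]
  have h6 : 2 ^ n + (K + M * j) ≡ 0 [MOD d.1 * d.2] := by
    have h7 : M * j ≡ 0 [MOD d.1 * d.2] := by
      have : M ≡ 0 [MOD d.1 * d.2] := by
        unfold Nat.ModEq
        rw [h2, Nat.zero_mod]
      simpa using this.mul_right j
    have h8 : 2 ^ (n % 720) + K ≡ 0 [MOD d.1 * d.2] := by
      unfold Nat.ModEq
      rw [h0, Nat.zero_mod]
    calc 2 ^ n + (K + M * j) = (2 ^ n + K) + M * j := by ring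
      _ ≡ (2 ^ (n % 720) + K) + 0 [MOD d.1 * d.2] := (h4.add_right K).add h7
      _ ≡ 0 [MOD d.1 * d.2] := h8
  have h9 : d.1 * d.2 ∣ 2 ^ n + (K + M * j) := (Nat.modEq_zero_iff_dvd).1 h6
  have h10 := eq_of_dvd hs hp hq h9
  have h11 : d.1 * d.2 < 2 ^ n + (K + M * j) :=
    lt_of_lt_of_le h3 (le_trans (Nat.le_add_right K (M * j)) (Nat.le_add_left _ _))
  omega

/-- **Theorem.** Some infinite arithmetic progression of positive odd numbers contains no value of `a`. In
particular, not every odd positive integer is the distance from a power `2 ^ n` (`n ≥ 0`) to the smallest odd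
semiprime exceeding it. -/
theorem result : ∃ k₀ m : ℕ, 0 < m ∧ ∀ j : ℕ, Odd (k₀ + m * j) ∧ ∀ n : ℕ, a n ≠ k₀ + m * j := by
  refine ⟨K, M, by decide, fun j => ⟨?_, fun n h => ?_⟩⟩
  · have hK : Odd K := by decide +kernel
    have hM : Even M := by decide +kernel
    exact hK.add_even (hM.mul_right j)
  · have hmem := Nat.sInf_mem (exists_odd_semiprime n)
    unfold a at h
    have hlt := hmem.1
    have hs := hmem.2.2
    have e : sInf {s : ℕ | 2 ^ n < s ∧ Odd s ∧ IsSemiprime s} = 2 ^ n + (K + M * j) := by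
      omega
    rw [e] at hs
    exact not_semiprime n j hs

end Pool.Agent.Results.MP_c49196_nt.MissedOddNumbers
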